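import Mathlib
import Pool.Agent.Lib_helper86.Tangle.Final

/-!
# Tangled families of simplices: all pairs (n, d)

A tangled family of `n` `d`-simplices in `ℝ^d` exists exactly when `d = 3` and `n ≥ 6`, or
`d ≥ 4` and `n ≥ d + 2`.
-/

theorem Pool.Agent.Results.MP_683378_co.TangledPairs.result (n d : ℕ) (hn : 1 ≤ n) (hd : 1 ≤ d) :
    (∃ S : Fin n → Affine.Simplex ℝ (EuclideanSpace ℝ (Fin d)) d, Tangle.Tangled S) ↔
      (d = 3 ∧ 6 ≤ n) ∨ (4 ≤ d ∧ d + 2 ≤ n) :=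
  Tangle.tangled_iff n d hn hd
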